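import Pool.Agent.Lib.MP_1c8e06_ag.Mg.G057

set_option autoImplicit false

namespace Pool.Agent.MP_1c8e06_ag.BT

variable {G : Type} [Group G]

/-!
# Task S3: Wielandt's join theorem for finite groups

`sup_of_normal`: induction on `SN B L`: `B = L`: `N ⊔ L = L`.  Step `B ≤ B'`, `B'` normalises `B`, `SN B' L`:
`N ⊔ B ≤ N ⊔ B'`, and `N ⊔ B'` normalises `N ⊔ B`: it suffices to check elements `b ∈ N` and `b ∈ B'`
(`{b | cj b (N ⊔ B) = N ⊔ B}` is a subgroup).  For `b ∈ B' ≤ L`: `cj b N = N`, `cj b B = B`, `cj_sup`.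
For `b ∈ N`: `b ∈ N ⊔ B`, `cj_eq_self`.  Then `SN.step` and the induction hypothesis `SN (N ⊔ B') L`
(`SN.le` gives `B' ≤ L`).

`sup_of_normalises`: claim Q (strong induction on `Nat.card N`): if `SN A N`, `B` normalises `A` and `N`, and
`SN B (N ⊔ B)` then `SN (A ⊔ B) (N ⊔ B)`.  If `A = N` trivial.  Otherwise let
`N' = closure {n * a * n⁻¹ | n ∈ N, a ∈ A}` (the normal closure of `A` in `N`); `A ≤ N' ≤ N`, `N` normalises
`N'`, `N' ≠ N` by `SN.proper` (`N'` is contained in the proper normal subgroup).  `B` normalises `N'`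
(`b n a n⁻¹ b⁻¹ = (b n b⁻¹) (b a b⁻¹) (b n b⁻¹)⁻¹`).  `SN A N'` (`SN.mono`).  `SN B (N' ⊔ B)` (`SN.mono`).
Induction: `SN (A ⊔ B) (N' ⊔ B)`.  `N'` is normal in `N ⊔ B`, so `SN (N' ⊔ B) (N ⊔ B)` by `sup_of_normal`.
Apply Q with `N = L` (`L ⊔ B = L`, `cj b L = L` for `b ∈ B ≤ L`).

`sup`: strong induction on `Nat.card L`, then strong induction on `Nat.card G - Nat.card A` (all `A`).
If `B` normalises `A` use `sup_of_normalises`.  Otherwise `b ∈ B` with `cj b A ≠ A`; then `A ≠ L`
(`b ∈ L`), so by `SN.proper` there is `N`, `A ≤ N < L`, normal in `L`; `cj b A ≤ cj b N = N`.  `SN A N`,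
`SN (cj b A) N` (`SN.mono` of `SN.cj`, `cj b L = L`); the induction hypothesis for `N`
(`Nat.card N < Nat.card L`) gives `SN (A ⊔ cj b A) N`, hence `SN (A ⊔ cj b A) L` (`N` normal in `L`).
`A ⊔ cj b A` is bigger than `A` (equal cardinalities of `A` and `cj b A`, `cj_eq_of_le`), so
`SN ((A ⊔ cj b A) ⊔ B) L` by the inner induction hypothesis, and `(A ⊔ cj b A) ⊔ B = A ⊔ B` (`b ∈ B`).

`sSup_mem`: the set is finite (`Set.toFinite`); induction over finite sets, `SN.bot`.
-/
/-- The normaliser. -/
def S3_nz (A : Subgroup G) : Subgroup G where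
  carrier := {g | BT.cj g A = A}
  mul_mem' := by
    intro g h hg hh
    change BT.cj (g * h) A = A
    rw [cj_mul, hh, hg]
  one_mem' := cj_one A
  inv_mem' := by
    intro g hg
    change BT.cj g⁻¹ A = A
    have h : BT.cj g A = A := hg
    have := congrArg (BT.cj g⁻¹) h
    rw [cj_inv_cj] at this
    exact this.symm

theorem S3_mem_nz {A : Subgroup G} {g : G} : g ∈ S3_nz A ↔ BT.cj g A = A := Iff.rfl

theorem SN.sup_of_normal {N B L : Subgroup G} (h1 : N ≤ L) (h2 : ∀ b ∈ L, BT.cj b N = N)
    (h : SN B L) : SN (N ⊔ B) L := by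
  revert h1 h2
  induction h with
  | refl A =>
    intro h1 _
    rw [sup_eq_right.mpr h1]
    exact SN.refl _
  | step A B L hAB hn hBL ih =>
    intro h1 h2
    refine SN.step (N ⊔ A) (N ⊔ B) L (sup_le_sup_left hAB N) ?_ (ih h1 h2)
    have h3 : N ⊔ B ≤ S3_nz (N ⊔ A) := by
      refine sup_le ?_ ?_
      · intro b hb
        rw [S3_mem_nz]
        exact cj_eq_self ((le_sup_left : N ≤ N ⊔ A) hb)
      · intro b hb
        rw [S3_mem_nz, cj_sup, h2 b (hBL.le hb), hn b hb]
    exact fun b hb => h3 hb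

private theorem S3_Q [Finite G] : ∀ n : ℕ, ∀ N : Subgroup G, Nat.card N = n → ∀ A B : Subgroup G,
    SN A N → (∀ b ∈ B, BT.cj b A = A) → (∀ b ∈ B, BT.cj b N = N) → SN B (N ⊔ B) →
    SN (A ⊔ B) (N ⊔ B) := by
  intro n
  induction n using Nat.strong_induction_on with
  | _ n ih =>
    intro N hcard A B hAN hA hN hB
    by_cases hAeq : A = N
    · rw [hAeq]; exact SN.refl _
    · obtain ⟨P, hAP, hPN, hPne, hPn⟩ := hAN.proper hAeq
      set N' : Subgroup G := Subgroup.closure {y | ∃ n ∈ N, ∃ a ∈ A, y = n * a * n⁻¹} with hN'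
      have hAN' : A ≤ N' := by
        intro a ha
        exact Subgroup.subset_closure ⟨1, N.one_mem, a, ha, by group⟩
      have hN'P : N' ≤ P := by
        rw [hN', Subgroup.closure_le]
        rintro y ⟨n, hn, a, ha, rfl⟩
        have h1 := hPn n hn
        rw [SetLike.mem_coe, ← h1]
        exact conj_mem_cj.2 (hAP ha)
      have hN'N : N' ≤ N := hN'P.trans hPN
      have hlt : Nat.card N' < n := by
        rw [← hcard]
        refine lt_of_le_of_ne (Nat.card_mono (Set.toFinite _) hN'N) ?_
        intro e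
        have h1 : N' = N := Subgroup.eq_of_le_of_card_ge hN'N e.ge
        exact hPne (le_antisymm hPN (h1 ▸ hN'P))
      have hNn : ∀ b ∈ N, BT.cj b N' = N' := by
        intro b hb
        apply cj_eq_of_le
        rw [hN', cj_closure, Subgroup.closure_le]
        rintro _ ⟨y, ⟨n, hn, a, ha, rfl⟩, rfl⟩
        exact Subgroup.subset_closure ⟨b * n, N.mul_mem hb hn, a, ha, by group⟩
      have hBn : ∀ b ∈ B, BT.cj b N' = N' := by
        intro b hb
        apply cj_eq_of_le
        rw [hN', cj_closure, Subgroup.closure_le]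
        rintro _ ⟨y, ⟨n, hn, a, ha, rfl⟩, rfl⟩
        refine Subgroup.subset_closure ⟨b * n * b⁻¹, ?_, b * a * b⁻¹, ?_, by group⟩
        · rw [← hN b hb]; exact conj_mem_cj.2 hn
        · rw [← hA b hb]; exact conj_mem_cj.2 ha
      have hSA : SN A N' := hAN.mono hAN' hN'N
      have hSB : SN B (N' ⊔ B) := hB.mono le_sup_right (sup_le_sup_right hN'N B)
      have h1 := ih _ hlt N' rfl A B hSA hA hBn hSB
      have h2 : N ⊔ B ≤ S3_nz N' :=
        sup_le (fun b hb => hNn b hb) (fun b hb => hBn b hb)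
      have h3 : SN (N' ⊔ B) (N ⊔ B) :=
        SN.sup_of_normal (hN'N.trans le_sup_left) (fun b hb => h2 hb) hB
      exact h1.trans h3

theorem SN.sup_of_normalises [Finite G] {A B L : Subgroup G} (hA : SN A L) (hB : SN B L)
    (h : ∀ b ∈ B, BT.cj b A = A) : SN (A ⊔ B) L := by
  have hLB : L ⊔ B = L := sup_eq_left.mpr hB.le
  have h1 := S3_Q _ L rfl A B hA h (fun b hb => cj_eq_self (hB.le hb)) (by rw [hLB]; exact hB)
  rwa [hLB] at h1

private theorem S3_sup [Finite G] : ∀ n : ℕ, ∀ L : Subgroup G, Nat.card L = n → ∀ m : ℕ,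
    ∀ A B : Subgroup G, Nat.card G - Nat.card A = m → SN A L → SN B L → SN (A ⊔ B) L := by
  intro n
  induction n using Nat.strong_induction_on with
  | _ n ihn =>
    intro L hL m
    induction m using Nat.strong_induction_on with
    | _ m ihm =>
      intro A B hm hA hB
      by_cases hn : ∀ b ∈ B, BT.cj b A = A
      · exact SN.sup_of_normalises hA hB hn
      · push Not at hn
        obtain ⟨b, hb, hbA⟩ := hn
        have hbL : b ∈ L := hB.le hb
        have hAL : A ≠ L := by
          intro e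
          apply hbA
          rw [e]
          exact cj_eq_self hbL
        obtain ⟨N, hAN, hNL, hNne, hNn⟩ := hA.proper hAL
        have hcN : BT.cj b A ≤ N := by
          have := cj_mono (g := b) hAN
          rwa [hNn b hbL] at this
        have hcL : SN (BT.cj b A) L := by
          have := hA.cj b
          rwa [cj_eq_self hbL] at this
        have hlt : Nat.card N < n := by
          rw [← hL]
          refine lt_of_le_of_ne (Nat.card_mono (Set.toFinite _) hNL) ?_
          intro e
          exact hNne (Subgroup.eq_of_le_of_card_ge hNL e.ge)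
        have h1 : SN (A ⊔ BT.cj b A) N :=
          ihn _ hlt N rfl _ A (BT.cj b A) rfl (hA.mono hAN hNL) (hcL.mono hcN hNL)
        have h2 : SN (A ⊔ BT.cj b A) L := h1.trans (SN.of_normal hNL hNn)
        have hcard : Nat.card A < Nat.card (A ⊔ BT.cj b A : Subgroup G) := by
          refine lt_of_le_of_ne (Nat.card_mono (Set.toFinite _) (SetLike.coe_subset_coe.mpr le_sup_left)) ?_
          intro e
          have h3 : A = A ⊔ BT.cj b A := Subgroup.eq_of_le_of_card_ge le_sup_left e.ge
          apply hbA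
          apply cj_eq_of_le
          have h4 : BT.cj b A ≤ A ⊔ BT.cj b A := le_sup_right
          rwa [← h3] at h4
        have hcG : Nat.card (A ⊔ BT.cj b A : Subgroup G) ≤ Nat.card G :=
          Subgroup.card_le_card_group _
        have h5 := ihm (Nat.card G - Nat.card (A ⊔ BT.cj b A : Subgroup G)) (by omega)
          (A ⊔ BT.cj b A) B rfl h2 hB
        have h6 : (A ⊔ BT.cj b A) ⊔ B = A ⊔ B := by
          apply le_antisymm
          · refine sup_le (sup_le le_sup_left ?_) le_sup_right
            intro x hx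
            have e : x = b * (b⁻¹ * x * b) * b⁻¹ := by group
            rw [e]
            have hb' : b ∈ A ⊔ B := (le_sup_right : B ≤ A ⊔ B) hb
            exact (A ⊔ B).mul_mem ((A ⊔ B).mul_mem hb' ((le_sup_left : A ≤ A ⊔ B) hx))
              ((A ⊔ B).inv_mem hb')
          · exact sup_le_sup_right le_sup_left B
        rwa [h6] at h5

theorem SN.sup [Finite G] {A B L : Subgroup G} (hA : SN A L) (hB : SN B L) : SN (A ⊔ B) L :=
  S3_sup _ L rfl _ A B rfl hA hB

theorem SN.sSup_mem [Finite G] (S : Set (Subgroup G)) (L : Subgroup G) (h : ∀ A ∈ S, SN A L) :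
    SN (sSup S) L := by
  have hS : S.Finite := Set.toFinite S
  induction S, hS using Set.Finite.induction_on with
  | empty =>
    rw [sSup_empty]
    exact SN.bot L
  | insert _ _ ih =>
    rw [sSup_insert]
    exact SN.sup (h _ (Set.mem_insert _ _)) (ih fun A hA => h A (Set.mem_insert_of_mem _ hA))

end Pool.Agent.MP_1c8e06_ag.BT
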