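import Pool.Agent.Lib.MP_1c8e06_ag.Mg.G057

set_option autoImplicit false

namespace Pool.Agent.MP_1c8e06_ag.BT

variable {G : Type} [Group G]

/-!
# Task S4: the subnormal closure of an element

`clo x L = closure {y | ∃ a ∈ L, y = a x a⁻¹}` (in `Defs`).
`eq_of_clo`: if `T ≠ M`, `SN.proper` gives `N` with `T ≤ N ≤ M`, `N ≠ M`, normal in `M`; all generators
`a x a⁻¹` (`a ∈ M`) of `clo x M` lie in `N` (`x ∈ T ≤ N`, `cj a N = N`), so `M ≤ clo x M ≤ N`.
`exists_closure`: the set of all `S` with `SN S L`, `x ∈ S` is finite and contains `L`; take `S` with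
`Nat.card S` minimal.  For `T` with `SN T L`, `x ∈ T`: `SN (S ⊓ T) L`, `x ∈ S ⊓ T`, minimality gives
`S ⊓ T = S`.  `clo x S ≤ S`, `clo x S` is normalised by all `s ∈ S` (`cj_closure`; the generating set is
mapped to itself) and contains `x`, so `SN (clo x S) S`, `SN (clo x S) L`, hence `S ≤ clo x S`.
-/
theorem clo_le {x : G} {L : Subgroup G} (h : x ∈ L) : clo x L ≤ L := by
  rw [clo, Subgroup.closure_le]
  rintro _ ⟨a, ha, rfl⟩
  exact L.mul_mem (L.mul_mem ha h) (L.inv_mem ha)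

theorem SN.eq_of_clo {x : G} {T M : Subgroup G} (h : SN T M) (hx : x ∈ T) (hM : M ≤ clo x M) :
    T = M := by
  by_contra hne
  obtain ⟨N, hTN, hNM, hN, hn⟩ := h.proper hne
  refine hN (le_antisymm hNM (hM.trans ?_))
  rw [clo, Subgroup.closure_le]
  rintro _ ⟨a, ha, rfl⟩
  have h2 : a * x * a⁻¹ ∈ BT.cj a N := conj_mem_cj.2 (hTN hx)
  rw [hn a ha] at h2
  exact h2

private theorem mem_clo (x : G) (L : Subgroup G) : x ∈ clo x L :=
  Subgroup.subset_closure ⟨1, L.one_mem, by group⟩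

private theorem cj_clo [Finite G] (x : G) (L : Subgroup G) {b : G} (hb : b ∈ L) :
    cj b (clo x L) = clo x L := by
  apply cj_eq_of_le
  rw [clo, cj_closure, Subgroup.closure_le]
  rintro _ ⟨_, ⟨a, ha, rfl⟩, rfl⟩
  exact Subgroup.subset_closure ⟨b * a, L.mul_mem hb ha, by group⟩

theorem exists_closure [Finite G] {x : G} {L : Subgroup G} (hx : x ∈ L) :
    ∃ S : Subgroup G, SN S L ∧ x ∈ S ∧ S ≤ clo x S ∧ ∀ T : Subgroup G, SN T L → x ∈ T → S ≤ T := by
  obtain ⟨S, ⟨hS, hxS⟩, hmin⟩ := (wellFounded_lt (α := Subgroup G)).has_min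
    {S : Subgroup G | SN S L ∧ x ∈ S} ⟨L, SN.refl L, hx⟩
  have hle : ∀ T : Subgroup G, SN T L → x ∈ T → S ≤ T := by
    intro T hT hxT
    by_contra hn
    refine hmin (S ⊓ T) ⟨hS.inf hT, hxS, hxT⟩ (lt_of_le_of_ne inf_le_left fun h => hn ?_)
    rw [← h]
    exact inf_le_right
  refine ⟨S, hS, hxS, ?_, hle⟩
  exact hle _ ((SN.of_normal (clo_le hxS) fun b hb => cj_clo x S hb).trans hS) (mem_clo x S)

end Pool.Agent.MP_1c8e06_ag.BT
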