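import Mathlib

set_option autoImplicit false

namespace Pool.Agent.MP_1c8e06_ag.BT

variable {G : Type} [Group G]

/-- The conjugate subgroup `g A g⁻¹`. -/
def cj (g : G) (A : Subgroup G) : Subgroup G where
  carrier := {x | g⁻¹ * x * g ∈ A}
  mul_mem' := by
    intro a b ha hb
    have h : g⁻¹ * (a * b) * g = (g⁻¹ * a * g) * (g⁻¹ * b * g) := by group
    change g⁻¹ * (a * b) * g ∈ A
    rw [h]
    exact A.mul_mem ha hb
  one_mem' := by
    change g⁻¹ * 1 * g ∈ A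
    rw [mul_one, inv_mul_cancel]
    exact A.one_mem
  inv_mem' := by
    intro a ha
    have h : g⁻¹ * a⁻¹ * g = (g⁻¹ * a * g)⁻¹ := by group
    change g⁻¹ * a⁻¹ * g ∈ A
    rw [h]
    exact A.inv_mem ha

theorem mem_cj {g x : G} {A : Subgroup G} : x ∈ cj g A ↔ g⁻¹ * x * g ∈ A := Iff.rfl

theorem conj_mem_cj {g x : G} {A : Subgroup G} : g * x * g⁻¹ ∈ cj g A ↔ x ∈ A := by
  rw [mem_cj, show g⁻¹ * (g * x * g⁻¹) * g = x by group]

@[simp] theorem cj_one (A : Subgroup G) : cj 1 A = A := by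
  ext x
  rw [mem_cj]
  simp

theorem cj_mul (g h : G) (A : Subgroup G) : cj (g * h) A = cj g (cj h A) := by
  ext x
  rw [mem_cj, mem_cj, mem_cj, show (g * h)⁻¹ * x * (g * h) = h⁻¹ * (g⁻¹ * x * g) * h by group]

@[simp] theorem cj_inv_cj (g : G) (A : Subgroup G) : cj g⁻¹ (cj g A) = A := by
  rw [← cj_mul, inv_mul_cancel, cj_one]

@[simp] theorem cj_cj_inv (g : G) (A : Subgroup G) : cj g (cj g⁻¹ A) = A := by
  rw [← cj_mul, mul_inv_cancel, cj_one]

theorem cj_mono {g : G} {A B : Subgroup G} (h : A ≤ B) : cj g A ≤ cj g B := fun _ hx => h hx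

theorem cj_le_cj {g : G} {A B : Subgroup G} : cj g A ≤ cj g B ↔ A ≤ B :=
  ⟨fun h => by simpa using cj_mono (g := g⁻¹) h, cj_mono⟩

theorem cj_le_iff {g : G} {A B : Subgroup G} : cj g A ≤ B ↔ A ≤ cj g⁻¹ B := by
  rw [← cj_le_cj (g := g⁻¹), cj_inv_cj]

theorem le_cj_iff {g : G} {A B : Subgroup G} : A ≤ cj g B ↔ cj g⁻¹ A ≤ B := by
  rw [cj_le_iff, inv_inv]

theorem cj_inj {g : G} {A B : Subgroup G} : cj g A = cj g B ↔ A = B :=
  ⟨fun h => by simpa using congrArg (cj g⁻¹) h, fun h => by rw [h]⟩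

theorem cj_eq_iff {g : G} {A B : Subgroup G} : cj g A = B ↔ A = cj g⁻¹ B := by
  rw [← cj_inj (g := g⁻¹), cj_inv_cj]

@[simp] theorem cj_top (g : G) : cj g (⊤ : Subgroup G) = ⊤ := by
  ext x
  simp [mem_cj]

@[simp] theorem cj_bot (g : G) : cj g (⊥ : Subgroup G) = ⊥ := by
  ext x
  rw [mem_cj, Subgroup.mem_bot, Subgroup.mem_bot]
  constructor
  · intro h
    have h2 : x = g * (g⁻¹ * x * g) * g⁻¹ := by group
    rw [h2, h]
    group
  · rintro rfl
    group

theorem cj_inf (g : G) (A B : Subgroup G) : cj g (A ⊓ B) = cj g A ⊓ cj g B := rfl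

theorem cj_sup (g : G) (A B : Subgroup G) : cj g (A ⊔ B) = cj g A ⊔ cj g B := by
  apply le_antisymm
  · rw [cj_le_iff]
    refine sup_le ?_ ?_
    · rw [le_cj_iff, inv_inv]
      exact le_sup_left
    · rw [le_cj_iff, inv_inv]
      exact le_sup_right
  · exact sup_le (cj_mono le_sup_left) (cj_mono le_sup_right)

theorem cj_closure (g : G) (S : Set G) :
    cj g (Subgroup.closure S) = Subgroup.closure ((fun x => g * x * g⁻¹) '' S) := by
  apply le_antisymm
  · rw [cj_le_iff, Subgroup.closure_le]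
    intro x hx
    have h2 : g * x * g⁻¹ ∈ Subgroup.closure ((fun x => g * x * g⁻¹) '' S) :=
      Subgroup.subset_closure ⟨x, hx, rfl⟩
    rw [SetLike.mem_coe, mem_cj, inv_inv]
    exact h2
  · rw [Subgroup.closure_le]
    rintro _ ⟨x, hx, rfl⟩
    exact conj_mem_cj.2 (Subgroup.subset_closure hx)

theorem cj_eq_self {g : G} {A : Subgroup G} (h : g ∈ A) : cj g A = A := by
  ext x
  rw [mem_cj]
  constructor
  · intro hx
    have h2 : x = g * (g⁻¹ * x * g) * g⁻¹ := by group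
    rw [h2]
    exact A.mul_mem (A.mul_mem h hx) (A.inv_mem h)
  · intro hx
    exact A.mul_mem (A.mul_mem (A.inv_mem h) hx) h

theorem isCoatom_cj {g : G} {A : Subgroup G} (h : IsCoatom A) : IsCoatom (cj g A) := by
  refine ⟨?_, ?_⟩
  · intro h2
    refine h.1 ?_
    rw [cj_eq_iff, cj_top] at h2
    exact h2
  · intro B hB
    have h2 : A < cj g⁻¹ B := by
      refine lt_of_le_of_ne ?_ ?_
      · rw [← cj_le_iff]
        exact hB.le
      · intro h3
        rw [← cj_eq_iff] at h3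
        exact hB.ne h3
    have h3 := h.2 _ h2
    rw [cj_eq_iff, inv_inv, cj_top] at h3
    exact h3

/-- The bijection `A ≃ g A g⁻¹`. -/
def cjEquiv (g : G) (A : Subgroup G) : A ≃ cj g A where
  toFun x := ⟨g * x * g⁻¹, conj_mem_cj.2 x.2⟩
  invFun x := ⟨g⁻¹ * x * g, x.2⟩
  left_inv x := by
    ext
    change g⁻¹ * (g * x * g⁻¹) * g = x
    group
  right_inv x := by
    ext
    change g * (g⁻¹ * x * g) * g⁻¹ = x
    group

theorem card_cj (g : G) (A : Subgroup G) : Nat.card (cj g A) = Nat.card A :=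
  (Nat.card_congr (cjEquiv g A)).symm

/-- If `g` maps `A` into itself then `g` normalises `A` (finite case). -/
theorem cj_eq_of_le [Finite G] {g : G} {A : Subgroup G} (h : cj g A ≤ A) : cj g A = A :=
  Subgroup.eq_of_le_of_card_ge h (card_cj g A).ge

/-- `A` is subnormal in `L`. -/
inductive SN : Subgroup G → Subgroup G → Prop
  | refl (A : Subgroup G) : SN A A
  | step (A B L : Subgroup G) : A ≤ B → (∀ b ∈ B, cj b A = A) → SN B L → SN A L

/-- The subgroup generated by the `L`-conjugates of `x`. -/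
def clo (x : G) (L : Subgroup G) : Subgroup G :=
  Subgroup.closure {y | ∃ a ∈ L, y = a * x * a⁻¹}

/-- The subgroup generated by all `y` conjugate to `x` in `⟨x, y⟩`. -/
def MM (x : G) : Subgroup G :=
  Subgroup.closure {y | ∃ k ∈ Subgroup.closure ({x, y} : Set G), y = k * x * k⁻¹}

/-- The subgroup of `L` generated by the elements of `X` in `L` with value `Z`. -/
def col (X : Set G) (v : G → Subgroup G) (L Z : Subgroup G) : Subgroup G :=
  Subgroup.closure {z | z ∈ X ∧ z ∈ L ∧ v z = Z}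

/-- The situation in a minimal counterexample. -/
structure BEnv (G : Type) [Group G] where
  X : Set G
  v : G → Subgroup G
  ne : X.Nonempty
  conj : ∀ x ∈ X, ∀ y ∈ X, ∃ h : G, y = h * x * h⁻¹
  inv : ∀ x ∈ X, ∀ h : G, h * x * h⁻¹ ∈ X
  gen : Subgroup.closure X = ⊤
  coat : ∀ x ∈ X, IsCoatom (v x)
  vconj : ∀ x ∈ X, ∀ h : G, v (h * x * h⁻¹) = cj h (v x)
  sn : ∀ L : Subgroup G, L ≠ ⊤ → ∀ x ∈ X, SN (col X v L (v x)) L
  le : ∀ L : Subgroup G, L ≠ ⊤ → ∀ x ∈ X, col X v L (v x) ≤ v x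
  big : ∀ x ∈ X, ∀ T : Subgroup G, x ∈ T → SN T (v x) → ∀ K : Subgroup G, IsCoatom K →
    T ≤ K → K = v x
  pair : ∀ x ∈ X, ∀ y ∈ X, Subgroup.closure ({x, y} : Set G) ≠ ⊤

namespace BEnv

variable (E : BEnv G)

/-- The values. -/
def Om : Set (Subgroup G) := {Z | ∃ x ∈ E.X, E.v x = Z}

/-- A bad pair. -/
def Bad (Z K : Subgroup G) : Prop :=
  IsCoatom K ∧ K ≠ Z ∧ ∃ x ∈ E.X, x ∈ K ∧ E.v x = Z

/-- `T` is a group `col K Z` of order `s`, for a bad pair `(Z, K)`. -/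
def Full (s : ℕ) (Z T : Subgroup G) : Prop :=
  ∃ K, E.Bad Z K ∧ T = col E.X E.v K Z ∧ Nat.card T = s

/-- `s` is the maximal order of `col K Z`. -/
def Max (s : ℕ) : Prop := ∀ Z K, E.Bad Z K → Nat.card (col E.X E.v K Z) ≤ s

/-- The values of the full groups in `W`. -/
def Phi (s : ℕ) (W : Subgroup G) : Set (Subgroup G) := {Z | ∃ T, E.Full s Z T ∧ T ≤ W}

end BEnv

end Pool.Agent.MP_1c8e06_ag.BT
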