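import Pool.Agent.Lib.MP_1c8e06_ag.Mg.G070
import Pool.Agent.Lib.MP_1c8e06_ag.AI.FIN

set_option autoImplicit false

namespace Pool.Agent.MP_1c8e06_ag.BT

variable {G : Type} [Group G]

/-!
# Task FIN2: the theorem for `p = 2`

`P = zpowers g` with `orderOf g = 2` (`Nat.card P = 2`: take `g ∈ P`, `g ≠ 1`; `orderOf g ∣ 2`;
`zpowers g = P` by cardinality); `normalClosure {g} = ⊤` (`Subgroup.normalClosure` of `{g}` contains `g`, hence
`zpowers g = P`, so it contains `normalClosure P`).  `gen_two` and `AI.mainT` (with `Fact (Nat.Prime 2)`).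
-/
theorem main_two (k : Type) [Field k] [IsAlgClosed k] [CharP k 2] {G : Type} [Group G] [Finite G]
    (P : Subgroup G) (hP : Nat.card P = 2) (hgen : Subgroup.normalClosure (P : Set G) = ⊤) :
    AI.Realised k G P := by
  obtain ⟨g, hg⟩ : ∃ g : P, g ≠ 1 := by
    haveI : Nontrivial P := by
      rw [← Finite.one_lt_card_iff_nontrivial, hP]
      norm_num
    exact exists_ne 1
  have hg2 : orderOf (g : G) = 2 := by
    have h1 : orderOf (g : G) ∣ 2 := by
      rw [Subgroup.orderOf_coe, ← hP]
      exact orderOf_dvd_natCard g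
    rcases (Nat.dvd_prime Nat.prime_two).1 h1 with h2 | h2
    · exfalso
      apply hg
      rw [orderOf_eq_one_iff] at h2
      exact Subtype.ext h2
    · exact h2
  have hPz : Subgroup.zpowers (g : G) = P := by
    refine Subgroup.eq_of_le_of_card_ge ?_ ?_
    · rw [Subgroup.zpowers_le]
      exact g.2
    · rw [hP, Nat.card_zpowers, hg2]
  have hn : Subgroup.normalClosure ({(g : G)} : Set G) = ⊤ := by
    rw [eq_top_iff, ← hgen]
    refine Subgroup.normalClosure_le_normal ?_
    intro y hy
    have h3 : Subgroup.zpowers (g : G) ≤ Subgroup.normalClosure ({(g : G)} : Set G) := by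
      rw [Subgroup.zpowers_le]
      exact Subgroup.subset_normalClosure (Set.mem_singleton _)
    rw [hPz] at h3
    exact h3 hy
  haveI : Fact (Nat.Prime 2) := ⟨Nat.prime_two⟩
  have h := AI.mainT (p := 2) k (g : G) hg2 (gen_two (g : G) hg2 hn)
  rwa [hPz] at h

end Pool.Agent.MP_1c8e06_ag.BT
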